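import Pool.Agent.W31.LD.Defs

/-!
# The induction over the levels
-/

set_option autoImplicit false

namespace Pool.Agent.W191.LD.Glue

open W31LD

theorem clev_card (i : ℕ) (L L' : Finset ℕ) (h : clev i L = clev i L') : L.card = L'.card := by
  cases i with
  | zero => exact h
  | succ i => exact (Nat.pair_eq_pair.1 h).1

theorem base (B : ℕ) (hB : 3 ≤ B) : AC (clev 0) 1 (gg B 0) := by
  intro D E hDE hD hE τ
  have hB' : (1 : ℝ) ≤ (B : ℝ) := by
    have : (3 : ℝ) ≤ (B : ℝ) := by exact_mod_cast hB
    linarith
  have hmu : 0 ≤ mu B 0 := by
    unfold mu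
    have := Real.log_nonneg hB'
    positivity
  rcases D.eq_empty_or_nonempty with rfl | hne
  · have h1 : (((∅ : Finset ℕ).powerset.filter (fun J => clev 0 (E ∪ J) = τ)).card : ℝ) ≤ 1 := by
      have h := Finset.card_filter_le (∅ : Finset ℕ).powerset (fun J => clev 0 (E ∪ J) = τ)
      rw [Finset.powerset_empty, Finset.card_singleton] at h
      exact_mod_cast h
    simpa [gg] using h1
  · have hD0 : D = {0} := by
      rw [Finset.range_one] at hD
      exact (Finset.subset_singleton_iff.1 hD).resolve_left hne.ne_empty
    have hE0 : E = ∅ := by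
      rw [Finset.range_one] at hE
      rcases Finset.subset_singleton_iff.1 hE with h | h
      · exact h
      · exfalso
        rw [hD0, h] at hDE
        simp at hDE
    subst hD0
    subst hE0
    have h1 : ((({0} : Finset ℕ).powerset.filter
        (fun J => clev 0 (∅ ∪ J) = τ)).card : ℝ) ≤ 1 := by
      have h : (({0} : Finset ℕ).powerset.filter (fun J => clev 0 (∅ ∪ J) = τ)).card ≤ 1 := by
        rw [Finset.card_le_one]
        intro a ha b hb
        rw [Finset.mem_filter, Finset.mem_powerset] at ha hb
        have ha2 : a.card = τ := by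
          have := ha.2
          rwa [Finset.empty_union] at this
        have hb2 : b.card = τ := by
          have := hb.2
          rwa [Finset.empty_union] at this
        rcases Finset.subset_singleton_iff.1 ha.1 with h | h <;>
          rcases Finset.subset_singleton_iff.1 hb.1 with h' | h'
        · rw [h, h']
        · rw [h] at ha2
          rw [h'] at hb2
          simp at ha2 hb2
          omega
        · rw [h] at ha2
          rw [h'] at hb2
          simp at ha2 hb2
          omega
        · rw [h, h']
      exact_mod_cast h
    refine h1.trans ?_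
    have h2 : gg B 0 ({0} : Finset ℕ).card * 2 ^ ({0} : Finset ℕ).card = Real.exp (mu B 0) := by
      have h3 : -(mu B 0 * ((1 : ℝ) - 2)) = mu B 0 := by ring
      rw [Finset.card_singleton, gg, if_neg one_ne_zero, Nat.cast_one]
      rw [h3]
      ring
    rw [h2]
    exact Real.one_le_exp hmu

theorem done : T_Glue := by
  intro hS hN
  obtain ⟨B0, hB0⟩ := hN
  refine ⟨max B0 3, fun B hB => ?_⟩
  have h1 : B0 ≤ B := (le_max_left _ _).trans hB
  have h3 : 3 ≤ B := (le_max_right _ _).trans hB
  have key : ∀ i, i ≤ B → AC (clev i) ((fun n : ℕ => 2 ^ n)^[i] 1) (gg B i) := by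
    intro i
    induction i with
    | zero =>
      intro _
      have := base B h3
      simpa using this
    | succ i ih =>
      intro hi
      have h := hS (clev i) ((fun n : ℕ => 2 ^ n)^[i] 1) (gg B i) (gg B (i + 1)) (th B i)
        (60 * (i + B)) (hB0 B h1 i (by omega)) (clev_card i) (ih (by omega))
      rw [Function.iterate_succ_apply']
      exact h
  exact key B le_rfl

end Pool.Agent.W191.LD.Glue
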